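import Pool.Agent.Lib.helper13.Parity

set_option autoImplicit false

open MeasureTheory Set Filter Topology Manifold
open scoped ContDiff

namespace Pool.Agent.Lib.helper13

variable {E : Type*} [NormedAddCommGroup E] [NormedSpace ℝ E] [FiniteDimensional ℝ E]
  {M : Type*} [MetricSpace M] [CompactSpace M] [ChartedSpace E M] [IsManifold 𝓘(ℝ, E) ∞ M]

variable (E) in
theorem exists_fin_partition (U : M → Set M) (hU : ∀ q, IsOpen (U q)) (hq : ∀ q, q ∈ U q) :
    ∃ (J : ℕ) (q : Fin J → M) (ρ : Fin J → M → ℝ),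
      (∀ j, ContMDiff 𝓘(ℝ, E) 𝓘(ℝ, ℝ) ∞ (ρ j)) ∧ (∀ j x, 0 ≤ ρ j x) ∧ (∀ x, ∑ j, ρ j x = 1) ∧
      ∀ j, tsupport (ρ j) ⊆ U (q j) := by
  obtain ⟨t, ht⟩ := isCompact_univ.elim_finite_subcover U hU
    (fun x _ => mem_iUnion.2 ⟨x, hq x⟩)
  let q : Fin t.card → M := fun j => (t.equivFin.symm j : M)
  obtain ⟨ρ, hρ⟩ := SmoothPartitionOfUnity.exists_isSubordinate 𝓘(ℝ, E) isClosed_univ
    (fun j => U (q j)) (fun j => hU _) (by
      intro x hx
      obtain ⟨a, ha, hxa⟩ := mem_iUnion₂.1 (ht hx)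
      exact mem_iUnion.2 ⟨t.equivFin ⟨a, ha⟩, by simpa [q] using hxa⟩)
  refine ⟨t.card, q, fun j => ρ j, fun j => (ρ j).contMDiff, ρ.nonneg, fun x => ?_, hρ⟩
  rw [← finsum_eq_sum_of_fintype]
  exact ρ.sum_eq_one (mem_univ x)

/-- Points sent by `f` into the open ray through `(y, 1)`. -/
def rayPre (f : M → E × ℝ) (y : E) : Set M := {x | 0 < (f x).2 ∧ (f x).1 = (f x).2 • y}

variable [MeasurableSpace E] [BorelSpace E] (μ : Measure E) [μ.IsAddHaarMeasure]

/-- The mod 2 degree of `f / ‖f‖` is one, tested on rays near the vertical one. -/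
def OddDeg (r : ℝ) (f : M → E × ℝ) : Prop :=
  ∀ᵐ y ∂μ, ‖y‖ < r → (rayPre f y).Finite ∧ Odd (rayPre f y).ncard

omit [CompactSpace M] in
theorem ae_even_chart {f g : M → E × ℝ} (hf : ContMDiff 𝓘(ℝ, E) 𝓘(ℝ, E × ℝ) 1 f)
    (hg : ContMDiff 𝓘(ℝ, E) 𝓘(ℝ, E × ℝ) 1 g) {C : Set M} (hC : IsCompact C) {q : M}
    (hCq : C ⊆ (chartAt E q).source) (hfg : ∀ x, x ∉ C → f x = g x)
    (hpos : ∀ x ∈ C, 0 < (f x).2 ∧ 0 < (g x).2) :
    ∀ᵐ y ∂μ, (C ∩ rayPre f y).Finite ∧ (C ∩ rayPre g y).Finite ∧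
      Even ((C ∩ rayPre f y).ncard + (C ∩ rayPre g y).ncard) := by
  set φ := chartAt E q with hφ
  let O : Set M := {x | 0 < (f x).2} ∩ {x | 0 < (g x).2}
  have hO : IsOpen O := (isOpen_lt continuous_const hf.continuous.snd).inter
    (isOpen_lt continuous_const hg.continuous.snd)
  let W : Set E := φ.target ∩ φ.symm ⁻¹' O
  have hW : IsOpen W := φ.isOpen_inter_preimage_symm hO
  have hK : IsCompact (φ '' C) := hC.image_of_continuousOn (φ.continuousOn.mono hCq)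
  have hKW : φ '' C ⊆ W := by
    rintro _ ⟨x, hx, rfl⟩
    refine ⟨φ.map_source (hCq hx), ?_⟩
    rw [mem_preimage, φ.left_inv (hCq hx)]
    exact hpos x hx
  let proj : (M → E × ℝ) → E → E := fun h y => ((h (φ.symm y)).2)⁻¹ • (h (φ.symm y)).1
  have hproj : ∀ h : M → E × ℝ, ContMDiff 𝓘(ℝ, E) 𝓘(ℝ, E × ℝ) 1 h →
      (∀ y ∈ W, 0 < (h (φ.symm y)).2) → ContDiffOn ℝ 1 (proj h) W := by
    intro h hh hp
    have h1 : ContDiffOn ℝ 1 (h ∘ φ.symm) W :=
      ((hh.comp_contMDiffOn (contMDiffOn_chart_symm (I := 𝓘(ℝ, E)) (n := 1) (x := q))).mono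
        inter_subset_left).contDiffOn
    exact (h1.snd.inv fun y hy => (hp y hy).ne').smul h1.fst
  have himg : ∀ (h : M → E × ℝ), (∀ x ∈ C, 0 < (h x).2) → ∀ y,
      φ '' C ∩ proj h ⁻¹' {y} = φ '' (C ∩ rayPre h y) := by
    intro h hp y
    ext z
    constructor
    · rintro ⟨⟨x, hx, rfl⟩, h2⟩
      refine ⟨x, ⟨hx, hp x hx, ?_⟩, rfl⟩
      simp only [proj, mem_preimage, mem_singleton_iff, φ.left_inv (hCq hx)] at h2
      rw [← h2, smul_smul, mul_inv_cancel₀ (hp x hx).ne', one_smul]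
    · rintro ⟨x, ⟨hx, h1, h2⟩, rfl⟩
      refine ⟨⟨x, hx, rfl⟩, ?_⟩
      simp only [proj, mem_preimage, mem_singleton_iff, φ.left_inv (hCq hx)]
      rw [h2, smul_smul, inv_mul_cancel₀ h1.ne', one_smul]
  have hinj : ∀ T : Set M, InjOn φ (C ∩ T) := fun T =>
    φ.injOn.mono (inter_subset_left.trans hCq)
  have := ae_even_ncard_on μ hW hK hKW (hproj f hf fun y hy => hy.2.1)
    (hproj g hg fun y hy => hy.2.2) (by
      intro y hy hyK
      have : φ.symm y ∉ C := fun h => hyK ⟨_, h, φ.right_inv hy.1⟩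
      simp only [proj, hfg _ this])
  filter_upwards [this] with y hy
  rw [himg f (fun x hx => (hpos x hx).1), himg g (fun x hx => (hpos x hx).2),
    (hinj _).ncard_image, (hinj _).ncard_image] at hy
  exact ⟨hy.1.of_finite_image (hinj _), hy.2.1.of_finite_image (hinj _), hy.2.2⟩

omit [CompactSpace M] in
theorem OddDeg.step {f g : M → E × ℝ} (hf : ContMDiff 𝓘(ℝ, E) 𝓘(ℝ, E × ℝ) 1 f)
    (hg : ContMDiff 𝓘(ℝ, E) 𝓘(ℝ, E × ℝ) 1 g) {C : Set M} (hC : IsCompact C) {q : M}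
    (hCq : C ⊆ (chartAt E q).source) (hfg : ∀ x, x ∉ C → f x = g x) {w : E × ℝ} (hw : 1 ≤ ‖w‖)
    (hfw : ∀ x ∈ C, ‖f x - w‖ < 1 / 3) (hgw : ∀ x ∈ C, ‖g x - w‖ < 1 / 3) {r : ℝ} (hr : r ≤ 1)
    (h : OddDeg μ r f) : OddDeg μ r g := by
  have key : ∀ᵐ y ∂μ, ‖y‖ < 1 → (C ∩ rayPre f y).Finite ∧ (C ∩ rayPre g y).Finite ∧
      Even ((C ∩ rayPre f y).ncard + (C ∩ rayPre g y).ncard) := by
    have hsnd : ∀ z : E × ℝ, ‖z - w‖ < 1 / 3 → |z.2 - w.2| < 1 / 3 := fun z hz =>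
      lt_of_le_of_lt (norm_snd_le (z - w)) hz
    have hfst : ∀ z : E × ℝ, ‖z - w‖ < 1 / 3 → ‖z.1 - w.1‖ < 1 / 3 := fun z hz =>
      lt_of_le_of_lt (norm_fst_le (z - w)) hz
    by_cases hw2 : 1 / 3 ≤ w.2
    · filter_upwards [ae_even_chart μ hf hg hC hCq hfg (fun x hx =>
        ⟨by linarith [(abs_lt.1 (hsnd _ (hfw x hx))).1],
          by linarith [(abs_lt.1 (hsnd _ (hgw x hx))).1]⟩)] with y hy _ using hy
    · have hempty : ∀ h : M → E × ℝ, (∀ x ∈ C, ‖h x - w‖ < 1 / 3) → ∀ y : E, ‖y‖ < 1 →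
          C ∩ rayPre h y = ∅ := by
        intro h hh y hy
        rw [eq_empty_iff_forall_notMem]
        rintro x ⟨hx, h1, h2⟩
        have h3 := abs_lt.1 (hsnd _ (hh x hx))
        have h4 := hfst _ (hh x hx)
        have h5 : ‖(h x).1‖ ≤ (h x).2 := by
          rw [h2, norm_smul, Real.norm_eq_abs, abs_of_pos h1]
          exact mul_le_of_le_one_right h1.le hy.le
        have h6 : ‖w.1‖ ≤ ‖(h x).1‖ + ‖(h x).1 - w.1‖ := by
          have := norm_sub_le (h x).1 ((h x).1 - w.1)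
          rwa [sub_sub_cancel] at this
        rw [Prod.norm_def, le_max_iff, Real.norm_eq_abs, le_abs] at hw
        rcases hw with hw | hw | hw <;> linarith
      refine Eventually.of_forall fun y hy => ?_
      rw [hempty f hfw y hy, hempty g hgw y hy]
      simp
  filter_upwards [key, h] with y h1 h2 hy
  obtain ⟨f1, f2, e⟩ := h1 (hy.trans_le hr)
  obtain ⟨f3, o⟩ := h2 hy
  have hd : rayPre g y \ C = rayPre f y \ C := by
    ext x
    simp only [Set.mem_sdiff, rayPre, mem_ofPred_eq]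
    constructor
    · rintro ⟨h1, h2⟩
      rw [hfg x h2]
      exact ⟨h1, h2⟩
    · rintro ⟨h1, h2⟩
      rw [← hfg x h2]
      exact ⟨h1, h2⟩
  have f4 : (rayPre f y \ C).Finite := f3.subset sdiff_subset
  have e1 : rayPre f y = (C ∩ rayPre f y) ∪ (rayPre f y \ C) := by
    rw [inter_comm, inter_union_sdiff]
  have e2 : rayPre g y = (C ∩ rayPre g y) ∪ (rayPre f y \ C) := by
    rw [← hd, inter_comm, inter_union_sdiff]
  have d : ∀ S T : Set M, Disjoint (C ∩ S) (T \ C) := fun S T =>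
    disjoint_left.2 fun x h1 h2 => h2.2 h1.1
  rw [e1, ncard_union_eq (d _ _) f1 f4] at o
  rw [e2, ncard_union_eq (d _ _) f2 f4]
  refine ⟨f2.union f4, ?_⟩
  obtain ⟨a, ha⟩ := e
  obtain ⟨b, hb⟩ := o
  rw [Nat.odd_iff]
  omega

theorem OddDeg.of_close {f g : M → E × ℝ} (hf : ContMDiff 𝓘(ℝ, E) 𝓘(ℝ, E × ℝ) 1 f)
    (hg : ContMDiff 𝓘(ℝ, E) 𝓘(ℝ, E × ℝ) 1 g) (h1 : ∀ x, 1 ≤ ‖f x‖)
    (hfg : ∀ x, ‖g x - f x‖ ≤ 1 / 6) {r : ℝ} (hr : r ≤ 1) (h : OddDeg μ r f) : OddDeg μ r g := by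
  classical
  obtain ⟨J, q, ρ, hρ, hρ0, hρ1, hρU⟩ := exists_fin_partition E
    (fun q : M => (chartAt E q).source ∩ {x | ‖f x - f q‖ < 1 / 6})
    (fun q => (chartAt E q).open_source.inter
      (isOpen_lt (hf.continuous.sub continuous_const).norm continuous_const))
    (fun q => ⟨mem_chart_source E q, by simp⟩)
  let F : Finset (Fin J) → M → E × ℝ := fun s x => f x + (∑ j ∈ s, ρ j x) • (g x - f x)
  have hF : ∀ s, ContMDiff 𝓘(ℝ, E) 𝓘(ℝ, E × ℝ) 1 (F s) := fun s =>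
    hf.add ((contMDiff_finsetSum fun j _ => (hρ j).of_le (by simp)).smul (hg.sub hf))
  have hFf : ∀ s x, ‖F s x - f x‖ ≤ 1 / 6 := by
    intro s x
    have h2 : 0 ≤ ∑ j ∈ s, ρ j x := Finset.sum_nonneg fun j _ => hρ0 j x
    have h3 : ∑ j ∈ s, ρ j x ≤ 1 := by
      rw [← hρ1 x]
      exact Finset.sum_le_sum_of_subset_of_nonneg (Finset.subset_univ s) fun j _ _ => hρ0 j x
    simp only [F, add_sub_cancel_left]
    rw [norm_smul, Real.norm_eq_abs, abs_of_nonneg h2]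
    exact (mul_le_of_le_one_left (norm_nonneg _) h3).trans (hfg x)
  have hind : ∀ s, OddDeg μ r (F s) := by
    intro s
    induction s using Finset.induction_on with
    | empty =>
      have : F ∅ = f := by funext x; simp [F]
      rwa [this]
    | insert j s hj ih =>
      have hw : ∀ s, ∀ x ∈ tsupport (ρ j), ‖F s x - f (q j)‖ < 1 / 3 := by
        intro s x hx
        have h2 : ‖f x - f (q j)‖ < 1 / 6 := (hρU j hx).2
        have h3 := norm_add_le (F s x - f x) (f x - f (q j))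
        rw [sub_add_sub_cancel] at h3
        linarith [hFf s x]
      refine OddDeg.step μ (hF s) (hF _) (isClosed_tsupport (ρ j)).isCompact
        ((hρU j).trans inter_subset_left) ?_ (h1 (q j)) (hw s) (hw _) hr ih
      intro x hx
      simp only [F, Finset.sum_insert hj, image_eq_zero_of_notMem_tsupport hx, zero_add]
  have : F Finset.univ = g := by
    funext x
    simp [F, hρ1]
  rw [← this]
  exact hind _

omit [MeasurableSpace E] [BorelSpace E] in
theorem exists_collapse (p : M) : ∃ (c : M → E × ℝ) (r : ℝ), 0 < r ∧ r ≤ 1 ∧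
    ContMDiff 𝓘(ℝ, E) 𝓘(ℝ, E × ℝ) 1 c ∧ (∀ x, 2 ≤ ‖c x‖) ∧
    (∀ x, (c x).1 = 0 → 0 ≤ (c x).2 → x = p) ∧ ∀ y, ‖y‖ < r → ∃ x, rayPre c y = {x} := by
  obtain ⟨χ⟩ : Nonempty (SmoothBumpFunction 𝓘(ℝ, E) p) := inferInstance
  set φ := chartAt E p with hφ
  let c₀ : M → E × ℝ := fun x => (χ x • (φ x - φ p), 2 * χ x - 1)
  have hc₀ : ContMDiff 𝓘(ℝ, E) 𝓘(ℝ, E × ℝ) ∞ c₀ :=
    (χ.contMDiff_smul (contMDiffOn_chart.sub contMDiffOn_const)).prodMk_space
      ((contMDiff_const.mul χ.contMDiff).sub contMDiff_const)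
  have hray : ∀ x, (c₀ x).1 = 0 → 0 ≤ (c₀ x).2 → x = p := by
    intro x h1 h2
    simp only [c₀] at h1 h2
    have h3 : χ x ≠ 0 := by linarith
    have h4 : x ∈ φ.source := χ.support_subset_source h3
    rw [smul_eq_zero, sub_eq_zero] at h1
    exact φ.injOn h4 (mem_chart_source E p) (h1.resolve_left h3)
  have hne : ∀ x, 0 < ‖c₀ x‖ := by
    intro x
    rw [norm_pos_iff]
    intro h
    have h1 := hray x (by rw [h]; rfl) (by rw [h]; rfl)
    have h2 : (c₀ x).2 = 0 := by rw [h]; rfl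
    simp only [c₀, h1, χ.eq_one] at h2
    norm_num at h2
  obtain ⟨x₀, -, hx₀⟩ := isCompact_univ.exists_isMinOn ⟨p, mem_univ p⟩
    hc₀.continuous.norm.continuousOn
  have hm := hne x₀
  set t := 2 / ‖c₀ x₀‖ with ht
  have ht0 : 0 < t := by positivity
  have hc₁ : ContMDiff 𝓘(ℝ, E) 𝓘(ℝ, E × ℝ) 1 c₀ := hc₀.of_le (by simp)
  have hc₂ : ContMDiff 𝓘(ℝ, E) 𝓘(ℝ, ℝ) 1 fun _ : M => t := contMDiff_const
  refine ⟨fun x => t • c₀ x, min 1 χ.rIn, lt_min one_pos χ.rIn_pos, min_le_left _ _,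
    hc₂.smul hc₁, fun x => ?_, fun x h1 h2 => ?_, fun y hy => ?_⟩
  · rw [norm_smul, Real.norm_eq_abs, abs_of_pos ht0, ht, div_mul_eq_mul_div, le_div_iff₀ hm]
    have : ‖c₀ x₀‖ ≤ ‖c₀ x‖ := hx₀ (mem_univ x)
    linarith
  · rw [Prod.smul_fst, smul_eq_zero] at h1
    rw [Prod.smul_snd, smul_eq_mul] at h2
    exact hray x (h1.resolve_left ht0.ne') (nonneg_of_mul_nonneg_right h2 ht0)
  · have hy' : ‖y‖ < χ.rIn := hy.trans_le (min_le_right _ _)
    have htgt : φ p + y ∈ φ.target := by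
      have := χ.ball_subset (show φ p + y ∈ _ from ⟨by
        simpa [← hφ] using hy'.trans χ.rIn_lt_rOut, by simp⟩)
      simpa using this
    have hone : ∀ x ∈ φ.source, ‖φ x - φ p‖ ≤ χ.rIn → χ x = 1 := by
      intro x hx h
      apply χ.one_of_dist_le hx
      simpa [dist_eq_norm] using h
    refine ⟨φ.symm (φ p + y), ?_⟩
    ext x
    simp only [rayPre, mem_ofPred_eq, mem_singleton_iff, Prod.smul_fst, Prod.smul_snd,
      smul_eq_mul, c₀]
    constructor
    · rintro ⟨h1, h2⟩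
      have h3 : 0 < 2 * χ x - 1 := (mul_pos_iff_of_pos_left ht0).1 h1
      have h4 : 0 < χ x := by linarith
      have h5 : x ∈ φ.source := χ.support_subset_source h4.ne'
      rw [mul_smul, smul_right_inj ht0.ne'] at h2
      have h6 : χ x * ‖φ x - φ p‖ = (2 * χ x - 1) * ‖y‖ := by
        have := congrArg norm h2
        rwa [norm_smul, norm_smul, Real.norm_eq_abs, Real.norm_eq_abs, abs_of_pos h4,
          abs_of_pos h3] at this
      have h7 : ‖φ x - φ p‖ ≤ ‖y‖ := by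
        apply le_of_mul_le_mul_left _ h4
        rw [h6]
        apply mul_le_mul_of_nonneg_right _ (norm_nonneg _)
        linarith [χ.le_one (x := x)]
      rw [hone x h5 (h7.trans hy'.le)] at h2
      norm_num at h2
      rw [← h2, add_sub_cancel, φ.left_inv h5]
    · rintro rfl
      have h1 := φ.right_inv htgt
      rw [hone _ (φ.map_target htgt) (by rw [h1, add_sub_cancel_left]; exact hy'.le), h1]
      constructor
      · norm_num [ht0]
      · norm_num

/-- On a closed manifold a map joined to the identity by a chain of small steps is onto. -/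
theorem chain_surj (E : Type*) [NormedAddCommGroup E] [NormedSpace ℝ E] [FiniteDimensional ℝ E]
    {M : Type*} [MetricSpace M] [CompactSpace M] [ChartedSpace E M] [IsManifold 𝓘(ℝ, E) ∞ M]
    (p : M) : ∃ ε > 0, ∀ b : ℕ → M → M, (∀ k, Continuous (b k)) →
    (∀ x, b 0 x = x) → (∀ k x, dist (b k x) (b (k + 1) x) < ε) → ∀ k, p ∈ range (b k) := by
  borelize E
  let μ : Measure E := Measure.addHaar
  obtain ⟨c, r, hr0, hr1, hc, hc2, hcp, hcy⟩ := exists_collapse (E := E) p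
  obtain ⟨ε, hε, hεc⟩ := Metric.uniformContinuous_iff.1
    (CompactSpace.uniformContinuous_of_continuous hc.continuous) (1 / 18) (by norm_num)
  refine ⟨ε, hε, fun b hb hb0 hbs => ?_⟩
  have happ : ∀ k, ∀ η > 0, ∃ g : M → E × ℝ, ContMDiff 𝓘(ℝ, E) 𝓘(ℝ, E × ℝ) 1 g ∧
      ∀ x, ‖g x - c (b k x)‖ < η := by
    intro k η hη
    obtain ⟨g, hg, -⟩ := (hc.continuous.comp (hb k)).exists_contMDiff_approx 𝓘(ℝ, E) 1
      (continuous_const (y := η)) (fun _ => hη)
    exact ⟨g, g.contMDiff, fun x => by simpa [dist_eq_norm] using hg x⟩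
  have hinv : ∀ k, ∀ g : M → E × ℝ, ContMDiff 𝓘(ℝ, E) 𝓘(ℝ, E × ℝ) 1 g →
      (∀ x, ‖g x - c (b k x)‖ < 1 / 18) → OddDeg μ r g := by
    intro k
    induction k with
    | zero =>
      intro g hg h
      refine OddDeg.of_close μ hc hg (fun x => by linarith [hc2 x])
        (fun x => by have := h x; rw [hb0] at this; linarith) hr1 ?_
      refine Eventually.of_forall fun y hy => ?_
      obtain ⟨x, hx⟩ := hcy y hy
      rw [hx]
      simp
    | succ k ih =>
      intro g hg h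
      obtain ⟨f, hf, hf'⟩ := happ k (1 / 18) (by norm_num)
      refine OddDeg.of_close μ hf hg (fun x => ?_) (fun x => ?_) hr1 (ih f hf hf')
      · have h1 := norm_sub_le (f x) (f x - c (b k x))
        rw [sub_sub_cancel] at h1
        linarith [hc2 (b k x), hf' x]
      · have h1 := hεc (hbs k x)
        rw [dist_comm, dist_eq_norm] at h1
        have h2 : g x - f x = (g x - c (b (k + 1) x)) + (c (b (k + 1) x) - c (b k x))
            - (f x - c (b k x)) := by abel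
        rw [h2]
        have h3 := norm_sub_le ((g x - c (b (k + 1) x)) + (c (b (k + 1) x) - c (b k x)))
          (f x - c (b k x))
        have h4 := norm_add_le (g x - c (b (k + 1) x)) (c (b (k + 1) x) - c (b k x))
        linarith [h x, hf' x]
  intro k
  by_contra hp
  have hcb := hc.continuous.comp (hb k)
  let ψ : M → ℝ := fun x => max ‖(c (b k x)).1‖ (-(c (b k x)).2)
  have hψ : Continuous ψ := hcb.fst.norm.max hcb.snd.neg
  have hψ0 : ∀ x, 0 < ψ x := by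
    intro x
    by_contra hcon
    rw [not_lt, max_le_iff, norm_le_zero_iff, neg_nonpos] at hcon
    exact hp ⟨x, hcp _ hcon.1 hcon.2⟩
  obtain ⟨x₀, -, hx₀⟩ := isCompact_univ.exists_isMinOn ⟨p, mem_univ p⟩ hψ.continuousOn
  obtain ⟨x₁, -, hx₁⟩ := isCompact_univ.exists_isMaxOn ⟨p, mem_univ p⟩ hcb.norm.continuousOn
  set η := ψ x₀ with hη
  have hη0 : 0 < η := hψ0 x₀
  set B := ‖c (b k x₁)‖ + 1 with hB
  have hB0 : 0 < B := by positivity
  obtain ⟨g, hg, hg'⟩ := happ k (min (1 / 18) (η / 2)) (lt_min (by norm_num) (by positivity))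
  have hodd := hinv k g hg fun x => (hg' x).trans_le (min_le_left _ _)
  have hno : ∀ᵐ y ∂μ, y ∉ Metric.ball (0 : E) (min r (η / (2 * B))) := by
    filter_upwards [hodd] with y hy hy'
    rw [mem_ball_zero_iff, lt_min_iff] at hy'
    have : rayPre g y = ∅ := by
      rw [eq_empty_iff_forall_notMem]
      rintro x ⟨h1, h2⟩
      have h3 : η ≤ ψ x := hx₀ (mem_univ x)
      have h4 : ‖c (b k x)‖ ≤ ‖c (b k x₁)‖ := hx₁ (mem_univ x)
      have h5 := hg' x
      rw [lt_min_iff] at h5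
      have h6 : |(g x).2 - (c (b k x)).2| < η / 2 :=
        lt_of_le_of_lt (norm_snd_le (g x - c (b k x))) h5.2
      have h6' : |(g x).2 - (c (b k x)).2| < 1 / 18 :=
        lt_of_le_of_lt (norm_snd_le (g x - c (b k x))) h5.1
      have h7 : ‖(g x).1 - (c (b k x)).1‖ < η / 2 :=
        lt_of_le_of_lt (norm_fst_le (g x - c (b k x))) h5.2
      have h8 : |(c (b k x)).2| ≤ ‖c (b k x)‖ := norm_snd_le (c (b k x))
      have h9 : (g x).2 ≤ B := by
        linarith [(abs_lt.1 h6').2, le_abs_self (c (b k x)).2]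
      have h10 : ‖(g x).1‖ ≤ η / 2 := by
        rw [h2, norm_smul, Real.norm_eq_abs, abs_of_pos h1]
        calc (g x).2 * ‖y‖ ≤ B * (η / (2 * B)) := by gcongr; exact hy'.2.le
          _ = η / 2 := by field_simp
      have h11 := norm_sub_le (g x).1 ((g x).1 - (c (b k x)).1)
      rw [sub_sub_cancel] at h11
      rcases le_max_iff.1 h3 with h | h
      · linarith
      · linarith [(abs_lt.1 h6).2]
    have h2 := (hy hy'.1).2
    rw [this] at h2
    simp at h2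
  exact (Metric.measure_ball_pos μ (0 : E) (lt_min hr0 (by positivity))).ne'
    (measure_eq_zero_iff_ae_notMem.2 hno)

end Pool.Agent.Lib.helper13
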