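import Pool.Agent.Lib.helper9.NullLag

set_option autoImplicit false

open MeasureTheory Set Filter Topology
open scoped ENNReal

namespace Pool.Agent.Lib.helper13

variable {E : Type*} [NormedAddCommGroup E] [NormedSpace ℝ E] [FiniteDimensional ℝ E]
  [MeasurableSpace E] [BorelSpace E] (μ : Measure E) [μ.IsAddHaarMeasure]

omit [MeasurableSpace E] [BorelSpace E] in
theorem exists_injOn_cover {u : E → E} (hu : ContDiff ℝ 1 u) {A : Set E}
    (hdet : ∀ x ∈ A, (fderiv ℝ u x).det ≠ 0) :
    ∃ V : ℕ → Set E, (∀ i, IsOpen (V i)) ∧ (∀ i, InjOn u (V i)) ∧ A ⊆ ⋃ i, V i := by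
  have : CompleteSpace E := FiniteDimensional.complete ℝ E
  have h : ∀ x, ∃ U : Set E, IsOpen U ∧ InjOn u U ∧ (x ∈ A → x ∈ U) := by
    intro x
    by_cases hx : x ∈ A
    · have hd : HasFDerivAt u
          (((fderiv ℝ u x).toContinuousLinearEquivOfDetNeZero (hdet x hx) : E ≃L[ℝ] E) :
            E →L[ℝ] E) x := by
        rw [ContinuousLinearMap.coe_toContinuousLinearEquivOfDetNeZero]
        exact (hu.differentiable (by simp) x).hasFDerivAt
      let φ := hu.contDiffAt.toOpenPartialHomeomorph u hd (by simp)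
      exact ⟨φ.source, φ.open_source, φ.injOn,
        fun _ => hu.contDiffAt.mem_toOpenPartialHomeomorph_source hd (by simp)⟩
    · exact ⟨∅, isOpen_empty, injOn_empty _, fun h => absurd h hx⟩
  choose U hUo hUi hUm using h
  obtain ⟨t, -, htc, ht⟩ := TopologicalSpace.countable_cover_nhdsWithin (s := A) (f := U)
    (fun x hx => mem_nhdsWithin_of_mem_nhds ((hUo x).mem_nhds (hUm x hx)))
  refine ⟨fun i => U (enumerateCountable htc 0 i), fun i => hUo _, fun i => hUi _, ?_⟩
  intro x hx
  obtain ⟨a, ha, hxa⟩ := mem_iUnion₂.1 (ht hx)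
  obtain ⟨i, rfl⟩ := subset_range_enumerate htc 0 ha
  exact mem_iUnion.2 ⟨i, hxa⟩

/-- The area formula. -/
theorem area_formula {u : E → E} (hu : ContDiff ℝ 1 u) {A : Set E} (hA : MeasurableSet A)
    (hdet : ∀ x ∈ A, (fderiv ℝ u x).det ≠ 0) :
    Measurable (fun y => ((A ∩ u ⁻¹' {y}).encard : ℝ≥0∞)) ∧
    Measure.map u ((μ.restrict A).withDensity fun x => ENNReal.ofReal |(fderiv ℝ u x).det|) =
      μ.withDensity (fun y => ((A ∩ u ⁻¹' {y}).encard : ℝ≥0∞)) := by
  obtain ⟨V, hVo, hVi, hV⟩ := exists_injOn_cover hu hdet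
  let P : ℕ → Set E := fun i => A ∩ disjointed V i
  have hPm : ∀ i, MeasurableSet (P i) := fun i =>
    hA.inter (MeasurableSet.disjointed (fun i => (hVo i).measurableSet) i)
  have hPd : Pairwise (Function.onFun Disjoint P) := fun i j hij =>
    (disjoint_disjointed V hij).mono inter_subset_right inter_subset_right
  have hPi : ∀ i, InjOn u (P i) := fun i =>
    (hVi i).mono (inter_subset_right.trans (disjointed_subset V i))
  have hPU : ⋃ i, P i = A := by
    simp only [P, ← inter_iUnion, iUnion_disjointed]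
    exact inter_eq_left.2 hV
  have hd : ∀ i, ∀ x ∈ P i, HasFDerivWithinAt u (fderiv ℝ u x) (P i) x := fun i x _ =>
    (hu.differentiable (by simp) x).hasFDerivAt.hasFDerivWithinAt
  have hIm : ∀ i, MeasurableSet (u '' P i) := fun i =>
    measurable_image_of_fderivWithin (hPm i) (hd i) (hPi i)
  have hcount : (fun y => ((A ∩ u ⁻¹' {y}).encard : ℝ≥0∞)) =
      ∑' i, (u '' P i).indicator (1 : E → ℝ≥0∞) := by
    funext y
    have hy : MeasurableSet (u ⁻¹' {y}) := hu.continuous.measurable (measurableSet_singleton y)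
    rw [tsum_apply (Pi.summable.2 fun _ => ENNReal.summable), ← Measure.count_apply (hA.inter hy),
      ← hPU, iUnion_inter, measure_iUnion _ (fun i => (hPm i).inter hy)]
    · refine tsum_congr fun i => ?_
      rw [Measure.count_apply ((hPm i).inter hy)]
      by_cases h : y ∈ u '' P i
      · rw [indicator_of_mem h]
        obtain ⟨x, hx, rfl⟩ := h
        have : P i ∩ u ⁻¹' {u x} = {x} := by
          ext z
          constructor
          · rintro ⟨h1, h2⟩
            exact hPi i h1 hx h2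
          · rintro rfl
            exact ⟨hx, rfl⟩
        simp [this]
      · rw [indicator_of_notMem h]
        have : P i ∩ u ⁻¹' {y} = ∅ := by
          ext z
          simp only [mem_inter_iff, mem_preimage, mem_singleton_iff, mem_empty_iff_false,
            iff_false, not_and]
          intro h1 h2
          exact h ⟨z, h1, h2⟩
        simp [this]
    · exact fun i j hij => (hPd hij).mono inter_subset_left inter_subset_left
  have hmi : ∀ i, Measurable ((u '' P i).indicator (1 : E → ℝ≥0∞)) := fun i =>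
    measurable_one.indicator (hIm i)
  constructor
  · rw [hcount]
    have : (∑' i, (u '' P i).indicator (1 : E → ℝ≥0∞)) =
        fun y => ∑' i, (u '' P i).indicator (1 : E → ℝ≥0∞) y := by
      funext y
      rw [tsum_apply (Pi.summable.2 fun _ => ENNReal.summable)]
    rw [this]
    exact Measurable.tsum hmi
  · rw [hcount, withDensity_tsum hmi]
    conv_lhs => rw [← hPU]
    rw [Measure.restrict_iUnion hPd hPm, withDensity_sum,
      Measure.map_sum hu.continuous.measurable.aemeasurable]
    congr 1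
    funext i
    rw [withDensity_indicator_one (hIm i)]
    exact map_withDensity_abs_det_fderiv_eq_addHaar μ (hPm i).nullMeasurableSet (hd i) (hPi i)

theorem ext_of_cos_sin {ν₁ ν₂ : Measure E} [IsFiniteMeasure ν₁] [IsFiniteMeasure ν₂]
    (hc : ∀ L : StrongDual ℝ E, ∫ y, Real.cos (L y) ∂ν₁ = ∫ y, Real.cos (L y) ∂ν₂)
    (hs : ∀ L : StrongDual ℝ E, ∫ y, Real.sin (L y) ∂ν₁ = ∫ y, Real.sin (L y) ∂ν₂) :
    ν₁ = ν₂ := by
  have : CompleteSpace E := FiniteDimensional.complete ℝ E
  apply Measure.ext_of_charFunDual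
  funext L
  have key : ∀ (ν : Measure E) [IsFiniteMeasure ν], charFunDual ν L =
      ((∫ y, Real.cos (L y) ∂ν : ℝ) : ℂ) + ((∫ y, Real.sin (L y) ∂ν : ℝ) : ℂ) * Complex.I := by
    intro ν _
    rw [charFunDual_apply]
    simp_rw [Complex.exp_mul_I, ← Complex.ofReal_cos, ← Complex.ofReal_sin]
    rw [integral_add, integral_mul_const, integral_complex_ofReal, integral_complex_ofReal]
    · have h1 : Integrable (fun y => Real.cos (L y)) ν :=
        Integrable.of_bound (by fun_prop) 1 (Eventually.of_forall fun y => Real.abs_cos_le_one _)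
      exact h1.ofReal
    · have h1 : Integrable (fun y => Real.sin (L y)) ν :=
        Integrable.of_bound (by fun_prop) 1 (Eventually.of_forall fun y => Real.abs_sin_le_one _)
      exact h1.ofReal.mul_const _
  rw [key, key, hc, hs]

theorem integral_comp_mul_det_eq {u v : E → E} (hu : ContDiff ℝ 1 u) (hv : ContDiff ℝ 1 v)
    {K : Set E} (hK : IsCompact K) (huv : ∀ x, x ∉ K → u x = v x) (L : StrongDual ℝ E)
    {h h' : ℝ → ℝ} (hh : ContDiff ℝ 1 h) (hh' : ∀ t, HasDerivAt h (h' t) t) :
    ∫ x in K, (fderiv ℝ u x).det * h' (L (u x)) ∂μ =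
      ∫ x in K, (fderiv ℝ v x).det * h' (L (v x)) ∂μ := by
  by_cases hL : L = 0
  · subst hL
    simp only [zero_apply, integral_mul_const]
    rw [helper9.integral_det_eq_of_eq_off μ hu hv hK huv]
  obtain ⟨e, he⟩ : ∃ e, L e = 1 := by
    obtain ⟨w, hw⟩ : ∃ w, L w ≠ 0 := by
      by_contra hcon
      push Not at hcon
      exact hL (ContinuousLinearMap.ext hcon)
    exact ⟨(L w)⁻¹ • w, by rw [map_smul, smul_eq_mul, inv_mul_cancel₀ hw]⟩
  let Φ : E → E := fun y => y + (h (L y) - L y) • e
  have hΦ : ContDiff ℝ 1 Φ :=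
    contDiff_id.add (((hh.comp L.contDiff).sub L.contDiff).smul contDiff_const)
  have hΦd : ∀ y, (fderiv ℝ Φ y).det = h' (L y) := by
    intro y
    have h1 : HasFDerivAt (fun y => h (L y) - L y) (h' (L y) • L - L) y :=
      ((hh' (L y)).comp_hasFDerivAt y L.hasFDerivAt).sub L.hasFDerivAt
    have h2 : HasFDerivAt Φ (ContinuousLinearMap.id ℝ E + (h' (L y) • L - L).smulRight e) y :=
      (hasFDerivAt_id y).add (h1.smul_const e)
    rw [h2.fderiv]
    have h3 : ((ContinuousLinearMap.id ℝ E + (h' (L y) • L - L).smulRight e : E →L[ℝ] E) :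
        E →ₗ[ℝ] E) = LinearMap.transvection ((h' (L y) • L - L : StrongDual ℝ E) : E →ₗ[ℝ] ℝ) e := by
      ext z
      simp [LinearMap.transvection.apply]
    rw [ContinuousLinearMap.det, h3, LinearMap.transvection.det]
    simp [he]
  have key : ∀ w : E → E, ContDiff ℝ 1 w → ∀ x,
      (fderiv ℝ w x).det * h' (L (w x)) = (fderiv ℝ (Φ ∘ w) x).det := by
    intro w hw x
    rw [fderiv_comp x (hΦ.differentiable (by simp) _) (hw.differentiable (by simp) _), ← hΦd]
    simp only [ContinuousLinearMap.det, ContinuousLinearMap.toLinearMap_comp, LinearMap.det_comp]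
    ring
  simp_rw [key u hu, key v hv]
  exact helper9.integral_det_eq_of_eq_off μ (hΦ.comp hu) (hΦ.comp hv) hK
    (fun x hx => by simp only [Function.comp, huv x hx])

/-- The image measure appearing in the area formula. -/
noncomputable def areaMeasure (u : E → E) (A : Set E) : Measure E :=
  Measure.map u ((μ.restrict A).withDensity fun x => ENNReal.ofReal |(fderiv ℝ u x).det|)

omit [MeasurableSpace E] [BorelSpace E] [FiniteDimensional ℝ E] in
theorem continuous_det_fderiv {u : E → E} (hu : ContDiff ℝ 1 u) :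
    Continuous fun x => (fderiv ℝ u x).det :=
  ContinuousLinearMap.continuous_det.comp (hu.continuous_fderiv (by simp))

omit [FiniteDimensional ℝ E] in
theorem isFiniteMeasure_areaMeasure {u : E → E} (hu : ContDiff ℝ 1 u) {K A : Set E}
    (hK : IsCompact K) (hA : A ⊆ K) : IsFiniteMeasure (areaMeasure μ u A) := by
  have hi : IntegrableOn (fun x => |(fderiv ℝ u x).det|) A μ :=
    (ContinuousOn.integrableOn_compact hK (continuous_det_fderiv hu).abs.continuousOn).mono_set hA
  have := isFiniteMeasure_withDensity_ofReal hi.2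
  unfold areaMeasure
  infer_instance

omit [μ.IsAddHaarMeasure] [FiniteDimensional ℝ E] in
theorem integral_areaMeasure {u : E → E} (hu : ContDiff ℝ 1 u) (A : Set E) {g : E → ℝ}
    (hg : Continuous g) :
    ∫ y, g y ∂(areaMeasure μ u A) = ∫ x in A, |(fderiv ℝ u x).det| * g (u x) ∂μ := by
  unfold areaMeasure
  rw [integral_map hu.continuous.measurable.aemeasurable hg.aestronglyMeasurable,
    integral_withDensity_eq_integral_toReal_smul
      (continuous_det_fderiv hu).abs.measurable.ennreal_ofReal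
      (Eventually.of_forall fun _ => ENNReal.ofReal_lt_top)]
  refine integral_congr_ae (Eventually.of_forall fun x => ?_)
  simp only [smul_eq_mul]
  rw [ENNReal.toReal_ofReal (abs_nonneg _)]

omit [FiniteDimensional ℝ E] in
theorem integral_areaMeasure_sub {u : E → E} (hu : ContDiff ℝ 1 u) {K : Set E} (hK : IsCompact K)
    {g : E → ℝ} (hg : Continuous g) :
    ∫ y, g y ∂(areaMeasure μ u (K ∩ {x | 0 < (fderiv ℝ u x).det})) -
      ∫ y, g y ∂(areaMeasure μ u (K ∩ {x | (fderiv ℝ u x).det < 0})) =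
      ∫ x in K, (fderiv ℝ u x).det * g (u x) ∂μ := by
  have hd := continuous_det_fderiv hu
  have h1 : MeasurableSet {x | 0 < (fderiv ℝ u x).det} :=
    (isOpen_lt continuous_const hd).measurableSet
  have h2 : MeasurableSet {x | (fderiv ℝ u x).det < 0} :=
    (isOpen_lt hd continuous_const).measurableSet
  have hi : IntegrableOn (fun x => |(fderiv ℝ u x).det| * g (u x)) K μ :=
    ContinuousOn.integrableOn_compact hK (hd.abs.mul (hg.comp hu.continuous)).continuousOn
  rw [integral_areaMeasure μ hu _ hg, integral_areaMeasure μ hu _ hg, ← setIntegral_indicator h1,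
    ← setIntegral_indicator h2, ← integral_sub (hi.integrable.indicator h1)
      (hi.integrable.indicator h2)]
  refine integral_congr_ae (Eventually.of_forall fun x => ?_)
  simp only [indicator, mem_ofPred_eq]
  rcases lt_trichotomy ((fderiv ℝ u x).det) 0 with h | h | h
  · rw [if_neg h.not_gt, if_pos h, abs_of_neg h]; ring
  · simp [h]
  · rw [if_pos h, if_neg h.not_gt, abs_of_pos h]; ring

/-- Two `C¹` maps that agree off a compact set have the same number of preimages there, mod 2. -/
theorem ae_even_ncard {u v : E → E} (hu : ContDiff ℝ 1 u) (hv : ContDiff ℝ 1 v)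
    {K : Set E} (hK : IsCompact K) (huv : ∀ x, x ∉ K → u x = v x) :
    ∀ᵐ y ∂μ, (K ∩ u ⁻¹' {y}).Finite ∧ (K ∩ v ⁻¹' {y}).Finite ∧
      Even ((K ∩ u ⁻¹' {y}).ncard + (K ∩ v ⁻¹' {y}).ncard) := by
  let Ap : (E → E) → Set E := fun w => K ∩ {x | 0 < (fderiv ℝ w x).det}
  let An : (E → E) → Set E := fun w => K ∩ {x | (fderiv ℝ w x).det < 0}
  have hAp : ∀ w, ContDiff ℝ 1 w → MeasurableSet (Ap w) := fun w hw =>
    hK.measurableSet.inter (isOpen_lt continuous_const (continuous_det_fderiv hw)).measurableSet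
  have hAn : ∀ w, ContDiff ℝ 1 w → MeasurableSet (An w) := fun w hw =>
    hK.measurableSet.inter (isOpen_lt (continuous_det_fderiv hw) continuous_const).measurableSet
  have i1 := isFiniteMeasure_areaMeasure μ hu hK (A := Ap u) inter_subset_left
  have i2 := isFiniteMeasure_areaMeasure μ hu hK (A := An u) inter_subset_left
  have i3 := isFiniteMeasure_areaMeasure μ hv hK (A := Ap v) inter_subset_left
  have i4 := isFiniteMeasure_areaMeasure μ hv hK (A := An v) inter_subset_left
  have hgen : ∀ (L : StrongDual ℝ E) (h h' : ℝ → ℝ), ContDiff ℝ 1 h → (∀ t, HasDerivAt h (h' t) t) →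
      Continuous h' → (∀ t, |h' t| ≤ 1) →
      ∫ y, h' (L y) ∂(areaMeasure μ u (Ap u) + areaMeasure μ v (An v)) =
        ∫ y, h' (L y) ∂(areaMeasure μ v (Ap v) + areaMeasure μ u (An u)) := by
    intro L h h' hh hh' hc hb
    have hg : Continuous fun y => h' (L y) := hc.comp L.continuous
    have hint : ∀ (ν : Measure E) [IsFiniteMeasure ν], Integrable (fun y => h' (L y)) ν := by
      intro ν _
      exact Integrable.of_bound hg.aestronglyMeasurable 1 (Eventually.of_forall fun y => hb _)
    rw [integral_add_measure (hint _) (hint _), integral_add_measure (hint _) (hint _)]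
    have e1 := integral_areaMeasure_sub μ hu hK hg
    have e2 := integral_areaMeasure_sub μ hv hK hg
    have e3 := integral_comp_mul_det_eq μ hu hv hK huv L hh hh'
    simp only [Ap, An]
    linarith
  have hν : areaMeasure μ u (Ap u) + areaMeasure μ v (An v) =
      areaMeasure μ v (Ap v) + areaMeasure μ u (An u) := by
    apply ext_of_cos_sin
    · exact fun L => hgen L Real.sin Real.cos Real.contDiff_sin Real.hasDerivAt_sin
        Real.continuous_cos Real.abs_cos_le_one
    · exact fun L => hgen L (fun t => -Real.cos t) Real.sin Real.contDiff_cos.neg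
        (fun t => (Real.hasDerivAt_cos t).neg.congr_deriv (neg_neg _)) Real.continuous_sin
        Real.abs_sin_le_one
  obtain ⟨m1, a1⟩ := area_formula μ hu (hAp u hu) (fun x hx => ne_of_gt hx.2)
  obtain ⟨m2, a2⟩ := area_formula μ hu (hAn u hu) (fun x hx => ne_of_lt hx.2)
  obtain ⟨m3, a3⟩ := area_formula μ hv (hAp v hv) (fun x hx => ne_of_gt hx.2)
  obtain ⟨m4, a4⟩ := area_formula μ hv (hAn v hv) (fun x hx => ne_of_lt hx.2)
  have hfin : (areaMeasure μ u (Ap u) + areaMeasure μ v (An v)) univ ≠ ∞ := measure_ne_top _ _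
  unfold areaMeasure at hν hfin
  rw [a1, a4, ← withDensity_add_left m1] at hν hfin
  rw [a2, a3, ← withDensity_add_left m3,
    withDensity_eq_iff_of_sigmaFinite (m1.add m4).aemeasurable (m3.add m2).aemeasurable] at hν
  rw [withDensity_apply _ MeasurableSet.univ, Measure.restrict_univ] at hfin
  have hlt := ae_lt_top (m1.add m4) hfin
  have sard : ∀ w : E → E, ContDiff ℝ 1 w →
      ∀ᵐ y ∂μ, y ∉ w '' {x | (fderiv ℝ w x).det = 0} := by
    intro w hw
    exact measure_eq_zero_iff_ae_notMem.1 (addHaar_image_eq_zero_of_det_fderivWithin_eq_zero μ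
      (fun x _ => (hw.differentiable (by simp) x).hasFDerivAt.hasFDerivWithinAt) fun x hx => hx)
  have split : ∀ (w : E → E) (y : E), y ∉ w '' {x | (fderiv ℝ w x).det = 0} →
      K ∩ w ⁻¹' {y} = (Ap w ∩ w ⁻¹' {y}) ∪ (An w ∩ w ⁻¹' {y}) := by
    intro w y hy
    ext x
    simp only [Ap, An, mem_inter_iff, mem_union, mem_ofPred_eq, mem_preimage, mem_singleton_iff]
    constructor
    · rintro ⟨h1, h2⟩
      rcases lt_trichotomy ((fderiv ℝ w x).det) 0 with h | h | h
      · exact Or.inr ⟨⟨h1, h⟩, h2⟩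
      · exact absurd ⟨x, h, h2⟩ hy
      · exact Or.inl ⟨⟨h1, h⟩, h2⟩
    · rintro (⟨⟨h1, -⟩, h2⟩ | ⟨⟨h1, -⟩, h2⟩) <;> exact ⟨h1, h2⟩
  have disj : ∀ (w : E → E) (y : E), Disjoint (Ap w ∩ w ⁻¹' {y}) (An w ∩ w ⁻¹' {y}) := by
    intro w y
    rw [disjoint_left]
    intro x h1 h2
    exact lt_asymm (show 0 < (fderiv ℝ w x).det from h1.1.2) h2.1.2
  filter_upwards [hν, hlt, sard u hu, sard v hv] with y h1 h2 h3 h4
  simp only [Pi.add_apply] at h1 h2
  have h2' := h2
  rw [h1] at h2'
  rw [ENNReal.add_lt_top] at h2 h2'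
  have fin : ∀ s : Set E, (s.encard : ℝ≥0∞) < ∞ → s.Finite := by
    intro s hs
    rw [← encard_lt_top_iff]
    exact ENat.toENNReal_lt_top.1 hs
  have f1 := fin _ h2.1
  have f4 := fin _ h2.2
  have f3 := fin _ h2'.1
  have f2 := fin _ h2'.2
  rw [split u y h3, split v y h4]
  refine ⟨f1.union f2, f3.union f4, ?_⟩
  rw [ncard_union_eq (disj u y) f1 f2, ncard_union_eq (disj v y) f3 f4]
  rw [← f1.cast_ncard_eq, ← f2.cast_ncard_eq, ← f3.cast_ncard_eq, ← f4.cast_ncard_eq] at h1
  have h5 : (Ap u ∩ u ⁻¹' {y}).ncard + (An v ∩ v ⁻¹' {y}).ncard =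
      (Ap v ∩ v ⁻¹' {y}).ncard + (An u ∩ u ⁻¹' {y}).ncard := by exact_mod_cast h1
  exact ⟨(Ap u ∩ u ⁻¹' {y}).ncard + (An v ∩ v ⁻¹' {y}).ncard, by omega⟩

/-- Local form: maps defined on an open set, equal off a compact subset. -/
theorem ae_even_ncard_on {u v : E → E} {W K : Set E} (hW : IsOpen W) (hK : IsCompact K)
    (hKW : K ⊆ W) (hu : ContDiffOn ℝ 1 u W) (hv : ContDiffOn ℝ 1 v W)
    (huv : ∀ x ∈ W, x ∉ K → u x = v x) :
    ∀ᵐ y ∂μ, (K ∩ u ⁻¹' {y}).Finite ∧ (K ∩ v ⁻¹' {y}).Finite ∧
      Even ((K ∩ u ⁻¹' {y}).ncard + (K ∩ v ⁻¹' {y}).ncard) := by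
  obtain ⟨K', hK', h1, h2⟩ := exists_compact_between hK hW hKW
  obtain ⟨χ, hχ0, hχ1, -⟩ := exists_contMDiffMap_zero_one_of_isClosed (modelWithCornersSelf ℝ E)
    (n := 1) (s := (interior K')ᶜ) (t := K) isOpen_interior.isClosed_compl hK.isClosed
    (disjoint_compl_left_iff_subset.2 h1)
  have hχ : ContDiff ℝ 1 χ := χ.contMDiff.contDiff
  have hsm : ∀ w : E → E, ContDiffOn ℝ 1 w W → ContDiff ℝ 1 fun x => χ x • w x := by
    intro w hw
    rw [contDiff_iff_contDiffAt]
    intro x
    by_cases hx : x ∈ W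
    · exact hχ.contDiffAt.smul (hw.contDiffAt (hW.mem_nhds hx))
    · have : (fun x => χ x • w x) =ᶠ[𝓝 x] fun _ => 0 := by
        filter_upwards [hK'.isClosed.isOpen_compl.mem_nhds (fun h => hx (h2 h))] with z hz
        rw [hχ0 (fun h => hz (interior_subset h))]
        simp
      exact contDiffAt_const.congr_of_eventuallyEq this
  have heq : ∀ (w : E → E) (y : E), K ∩ (fun x => χ x • w x) ⁻¹' {y} = K ∩ w ⁻¹' {y} := by
    intro w y
    ext x
    simp only [mem_inter_iff, mem_preimage, mem_singleton_iff, and_congr_right_iff]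
    intro hx
    rw [hχ1 hx]
    simp
  have := ae_even_ncard μ (hsm u hu) (hsm v hv) hK (fun x hx => by
    by_cases hxW : x ∈ W
    · rw [huv x hxW hx]
    · rw [hχ0 (fun h => hxW (h2 (interior_subset h)))]
      simp)
  simpa only [heq] using this

end Pool.Agent.Lib.helper13
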